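import Mathlib

set_option autoImplicit false

namespace Pool.Agent.Helper531.FTO

open Set Filter Topology

/-- infinitely many disjoint open pieces, each clopen off a finite set, accumulate at `y` -/
def Bad (Y : Type*) [TopologicalSpace Y] (y : Y) : Prop :=
  ∃ F : Set Y, F.Finite ∧ ∃ U : ℕ → Set Y, (∀ k, IsOpen (U k)) ∧
    (∀ k l, k ≠ l → Disjoint (U k) (U l)) ∧ (∀ k, closure (U k) ⊆ U k ∪ F) ∧
    ∀ k, y ∈ closure (U k) ∧ y ∉ U k

theorem Bad.map {Y Z : Type*} [TopologicalSpace Y] [TopologicalSpace Z] (h : Y ≃ₜ Z) {y : Y}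
    (hy : Bad Y y) : Bad Z (h y) := by
  obtain ⟨F, hF, U, hU, hd, hc, hy⟩ := hy
  refine ⟨h '' F, hF.image _, fun k => h '' (U k), fun k => h.isOpenMap _ (hU k), ?_, ?_, ?_⟩
  · intro k l hkl
    exact (Set.disjoint_image_iff h.injective).mpr (hd k l hkl)
  · intro k
    rw [← h.image_closure, ← image_union]
    exact image_mono (hc k)
  · intro k
    rw [← h.image_closure]
    refine ⟨mem_image_of_mem _ (hy k).1, ?_⟩
    rw [h.injective.mem_set_image]
    exact (hy k).2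

/-- pigeonhole: a sequence with values in a finite set has an infinite fibre -/
theorem exists_fibre {Y : Type*} {F : Set Y} (hF : F.Finite) (y : ℕ → Y) (hy : ∀ k, y k ∈ F) :
    ∃ z ∈ F, {k | y k = z}.Infinite := by
  by_contra hcon
  push Not at hcon
  have h1 : (⋃ z ∈ F, {k | y k = z}).Finite := hF.biUnion (fun z hz => by
    have := hcon z hz
    simpa using this)
  have h2 : (univ : Set ℕ) ⊆ ⋃ z ∈ F, {k | y k = z} := by
    intro k _
    simp only [mem_iUnion]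
    exact ⟨y k, hy k, rfl⟩
  exact Set.infinite_univ (h1.subset h2)

theorem bad_pullback {X Y : Type*} [TopologicalSpace X] [TopologicalSpace Y] [PreconnectedSpace Y]
    (ψ : Y → X) (hψ : Continuous ψ) (hsurj : Function.Surjective ψ)
    (hfin : ∀ x, (ψ ⁻¹' {x}).Finite) (x : X) (U : ℕ → Set X) (hU : ∀ k, IsOpen (U k))
    (hne : ∀ k, (U k).Nonempty) (hd : ∀ k l, k ≠ l → Disjoint (U k) (U l))
    (hc : ∀ k, closure (U k) ⊆ U k ∪ {x}) (hx : ∀ k, x ∉ U k) : ∃ y, Bad Y y := by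
  have hopen : ∀ k, IsOpen (ψ ⁻¹' (U k)) := fun k => (hU k).preimage hψ
  have hcl : ∀ k, closure (ψ ⁻¹' (U k)) ⊆ ψ ⁻¹' (U k) ∪ ψ ⁻¹' {x} := fun k =>
    (hψ.closure_preimage_subset _).trans (preimage_mono (hc k))
  have hlim : ∀ k, ∃ y, y ∈ ψ ⁻¹' {x} ∧ y ∈ closure (ψ ⁻¹' (U k)) := by
    intro k
    by_contra hcon
    push Not at hcon
    have hclosed : IsClosed (ψ ⁻¹' (U k)) := by
      apply isClosed_of_closure_subset
      intro y hy
      rcases hcl k hy with h | h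
      · exact h
      · exact absurd hy (hcon y h)
    have hcases := isClopen_iff.mp ⟨hclosed, hopen k⟩
    obtain ⟨z, hz⟩ := hne k
    obtain ⟨y, rfl⟩ := hsurj z
    rcases hcases with h | h
    · have : y ∈ ψ ⁻¹' (U k) := hz
      rw [h] at this
      exact this
    · obtain ⟨w, hw⟩ := hsurj x
      have : w ∈ ψ ⁻¹' (U k) := by rw [h]; trivial
      apply hx k
      rw [← hw]
      exact this
  choose y hy1 hy2 using hlim
  obtain ⟨z, hz, hinf⟩ := exists_fibre (hfin x) y hy1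
  let e := hinf.natEmbedding
  refine ⟨z, ψ ⁻¹' {x}, hfin x, fun i => ψ ⁻¹' (U (e i)), fun i => hopen _, ?_, fun i => hcl _, ?_⟩
  · intro k l hkl
    apply Disjoint.preimage
    apply hd
    intro h
    exact hkl (e.injective (Subtype.ext h))
  · intro i
    have h1 : y (e i) = z := (e i).2
    refine ⟨?_, ?_⟩
    · have h3 := hy2 (e i)
      rw [h1] at h3
      exact h3
    · intro h
      have h2 : ψ z ∈ U (e i) := h
      rw [show ψ z = x from hz] at h2
      exact hx _ h2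

theorem bad_push {X Y : Type*} [TopologicalSpace X] [CompactSpace X] [TopologicalSpace Y] [T2Space Y]
    (φ : X → Y) (hφ : Continuous φ) (hsurj : Function.Surjective φ)
    (hfin : ∀ y, (φ ⁻¹' {y}).Finite) (J : Set X)
    (hloc : ∀ x, x ∉ J → ∀ F : Set X, F.Finite → ∃ N N1 N2 : Set X, IsOpen N ∧ x ∈ N ∧
      IsPreconnected N1 ∧ IsPreconnected N2 ∧ N ⊆ {x} ∪ N1 ∪ N2 ∧ Disjoint N1 F ∧ Disjoint N2 F)
    {y : Y} (hy : Bad Y y) : ∃ x ∈ J, φ x = y := by
  obtain ⟨F, hF, U, hU, hd, hc, hy⟩ := hy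
  have hopen : ∀ k, IsOpen (φ ⁻¹' (U k)) := fun k => (hU k).preimage hφ
  have hF' : (φ ⁻¹' F).Finite := by
    have : φ ⁻¹' F = ⋃ z ∈ F, φ ⁻¹' {z} := by
      ext x; simp
    rw [this]
    exact hF.biUnion (fun z _ => hfin z)
  have hcl : ∀ k, closure (φ ⁻¹' (U k)) ⊆ φ ⁻¹' (U k) ∪ φ ⁻¹' F := fun k =>
    (hφ.closure_preimage_subset _).trans (preimage_mono (hc k))
  have hlim : ∀ k, ∃ x, x ∈ φ ⁻¹' {y} ∧ x ∈ closure (φ ⁻¹' (U k)) := by
    intro k
    have h1 : y ∈ closure (φ '' (φ ⁻¹' (U k))) := by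
      rw [image_preimage_eq _ hsurj]; exact (hy k).1
    have h2 : closure (φ '' (φ ⁻¹' (U k))) ⊆ φ '' closure (φ ⁻¹' (U k)) :=
      closure_minimal (image_mono subset_closure) (hφ.isClosedMap _ isClosed_closure)
    obtain ⟨x, hx, hxy⟩ := h2 h1
    exact ⟨x, hxy, hx⟩
  choose x hx1 hx2 using hlim
  obtain ⟨z, hz, hinf⟩ := exists_fibre (hfin y) x hx1
  refine ⟨z, ?_, hz⟩
  by_contra hzJ
  obtain ⟨N, N1, N2, hN, hzN, hN1, hN2, hNsub, hd1, hd2⟩ := hloc z hzJ _ hF'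
  let e := hinf.natEmbedding
  -- every piece contains one of the two sets
  have hpiece : ∀ i, (N1.Nonempty ∧ N1 ⊆ φ ⁻¹' (U (e i))) ∨ (N2.Nonempty ∧ N2 ⊆ φ ⁻¹' (U (e i))) := by
    intro i
    have h1 : x (e i) = z := (e i).2
    have h2 : z ∈ closure (φ ⁻¹' (U (e i))) := by
      have h3 := hx2 (e i)
      rw [h1] at h3
      exact h3
    obtain ⟨w, hwN, hwU⟩ := mem_closure_iff.mp h2 N hN hzN
    have hwz : w ≠ z := by
      rintro rfl
      have h3 : φ w ∈ U (e i) := hwU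
      rw [show φ w = y from hz] at h3
      exact (hy _).2 h3
    have hmain : ∀ M : Set X, IsPreconnected M → Disjoint M (φ ⁻¹' F) → w ∈ M →
        M ⊆ φ ⁻¹' (U (e i)) := by
      intro M hM hMF hwM
      have hcopen : IsOpen (closure (φ ⁻¹' (U (e i))))ᶜ := isClosed_closure.isOpen_compl
      intro v hv
      by_contra hvn
      have hvc : v ∈ (closure (φ ⁻¹' (U (e i))))ᶜ := by
        intro hvc
        rcases hcl _ hvc with h | h
        · exact hvn h
        · exact Set.disjoint_left.mp hMF hv h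
      have hcov : M ⊆ φ ⁻¹' (U (e i)) ∪ (closure (φ ⁻¹' (U (e i))))ᶜ := by
        intro u hu
        by_cases huc : u ∈ closure (φ ⁻¹' (U (e i)))
        · rcases hcl _ huc with h | h
          · exact Or.inl h
          · exact absurd h (Set.disjoint_left.mp hMF hu)
        · exact Or.inr huc
      obtain ⟨u, -, hu1, hu2⟩ := hM _ _ (hopen _) hcopen hcov ⟨w, hwM, hwU⟩ ⟨v, hv, hvc⟩
      exact hu2 (subset_closure hu1)
    rcases hNsub hwN with (h | h) | h
    · exact absurd h hwz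
    · exact Or.inl ⟨⟨w, h⟩, hmain N1 hN1 hd1 h⟩
    · exact Or.inr ⟨⟨w, h⟩, hmain N2 hN2 hd2 h⟩
  have hdis : ∀ i j, i ≠ j → Disjoint (φ ⁻¹' (U (e i))) (φ ⁻¹' (U (e j))) := by
    intro i j hij
    apply Disjoint.preimage
    apply hd
    intro h
    exact hij (e.injective (Subtype.ext h))
  have hclash : ∀ i j, i ≠ j → ∀ M : Set X, M.Nonempty → M ⊆ φ ⁻¹' (U (e i)) →
      M ⊆ φ ⁻¹' (U (e j)) → False := by
    intro i j hij M ⟨v, hv⟩ h1 h2
    exact Set.disjoint_left.mp (hdis i j hij) (h1 hv) (h2 hv)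
  rcases hpiece 0 with h0 | h0 <;> rcases hpiece 1 with h1 | h1 <;> rcases hpiece 2 with h2 | h2
  · exact hclash 0 1 (by norm_num) N1 h0.1 h0.2 h1.2
  · exact hclash 0 1 (by norm_num) N1 h0.1 h0.2 h1.2
  · exact hclash 0 2 (by norm_num) N1 h0.1 h0.2 h2.2
  · exact hclash 1 2 (by norm_num) N2 h1.1 h1.2 h2.2
  · exact hclash 1 2 (by norm_num) N1 h1.1 h1.2 h2.2
  · exact hclash 0 2 (by norm_num) N2 h0.1 h0.2 h2.2
  · exact hclash 0 1 (by norm_num) N2 h0.1 h0.2 h1.2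
  · exact hclash 0 1 (by norm_num) N2 h0.1 h0.2 h1.2

end Pool.Agent.Helper531.FTO
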