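import Mathlib

set_option autoImplicit false

namespace Pool.Agent.Helper531.FTO

open Set Filter Topology Metric

/-- midpoints of the gaps of the middle third Cantor set, with their levels -/
inductive Mid : ℝ → ℕ → Prop
  | base : Mid (1 / 2) 0
  | left {m : ℝ} {n : ℕ} : Mid m n → Mid (m / 3) (n + 1)
  | right {m : ℝ} {n : ℕ} : Mid m n → Mid (m / 3 + 2 / 3) (n + 1)

/-- base interval together with infinitely many thin legs at each midpoint -/
def XS : Set (ℝ × ℝ × ℝ) :=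
  {p | (0 ≤ p.1 ∧ p.1 ≤ 1) ∧ (p.2 = (0, 0) ∨ ∃ n j : ℕ, Mid p.1 n ∧ 0 ≤ p.2.1 ∧
    p.2.1 ≤ (1 / 12) * (1 / 3) ^ n * (1 / 2) ^ j ∧ p.2.2 = (1 / 2) ^ j * p.2.1)}

theorem pow3_pos (n : ℕ) : (0:ℝ) < (1 / 3) ^ n := by positivity

theorem Mid.bounds {m : ℝ} {n : ℕ} (h : Mid m n) :
    (1 / 3 : ℝ) ^ n / 2 ≤ m ∧ m ≤ 1 - (1 / 3 : ℝ) ^ n / 2 := by
  induction h with
  | base => norm_num
  | @left m n _ ih =>
    have := pow3_pos n
    rw [pow_succ]
    constructor <;> nlinarith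
  | @right m n _ ih =>
    have := pow3_pos n
    rw [pow_succ]
    constructor <;> nlinarith

theorem Mid.pos {m : ℝ} {n : ℕ} (h : Mid m n) : 0 < m := by
  have := h.bounds.1
  have := pow3_pos n
  linarith

theorem Mid.lt_one {m : ℝ} {n : ℕ} (h : Mid m n) : m < 1 := by
  have := h.bounds.2
  have := pow3_pos n
  linarith

theorem pow3_le_one (n : ℕ) : (1 / 3 : ℝ) ^ n ≤ 1 := pow_le_one₀ (by norm_num) (by norm_num)

theorem pow2_le_one (n : ℕ) : (1 / 2 : ℝ) ^ n ≤ 1 := pow_le_one₀ (by norm_num) (by norm_num)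

theorem pow2_pos (n : ℕ) : (0:ℝ) < (1 / 2) ^ n := by positivity

/-- midpoints are isolated in their gaps -/
theorem Mid.gap {m : ℝ} {n : ℕ} (h : Mid m n) :
    ∀ {m' : ℝ} {n' : ℕ}, Mid m' n' → |m' - m| < (1 / 3 : ℝ) ^ n / 6 → m' = m := by
  induction h with
  | base =>
    intro m' n' h' hlt
    rw [pow_zero] at hlt
    obtain ⟨h1, h2⟩ := abs_lt.mp hlt
    cases h' with
    | base => rfl
    | left h'' =>
      have := h''.lt_one
      linarith
    | right h'' =>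
      have := h''.pos
      linarith
  | @left m n hm ih =>
    intro m' n' h' hlt
    have hp := pow3_pos n
    have hp1 := pow3_le_one n
    rw [pow_succ] at hlt
    obtain ⟨h1, h2⟩ := abs_lt.mp hlt
    have hm1 := hm.lt_one
    have hm0 := hm.pos
    cases h' with
    | base => exfalso; linarith
    | @left μ _ h'' =>
      have : μ = m := by
        apply ih h''
        rw [abs_lt]
        constructor <;> linarith
      rw [this]
    | right h'' =>
      exfalso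
      have := h''.pos
      linarith
  | @right m n hm ih =>
    intro m' n' h' hlt
    have hp := pow3_pos n
    have hp1 := pow3_le_one n
    rw [pow_succ] at hlt
    obtain ⟨h1, h2⟩ := abs_lt.mp hlt
    have hm1 := hm.lt_one
    have hm0 := hm.pos
    cases h' with
    | base => exfalso; linarith
    | @left μ _ h'' =>
      exfalso
      have := h''.lt_one
      linarith
    | @right μ _ h'' =>
      have : μ = m := by
        apply ih h''
        rw [abs_lt]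
        constructor <;> linarith
      rw [this]

theorem Mid.le_two_thirds {m : ℝ} {n : ℕ} (h : Mid m n) (hm : m ≤ 2 / 3) :
    m + (1 / 3 : ℝ) ^ n / 6 ≤ 2 / 3 := by
  cases h with
  | base => norm_num
  | @left μ k h' =>
    have := h'.bounds.2
    have := pow3_pos k
    rw [pow_succ]
    linarith
  | right h' =>
    have := h'.pos
    linarith

theorem Mid.symm {m : ℝ} {n : ℕ} (h : Mid m n) : Mid (1 - m) n := by
  induction h with
  | base =>
    have : (1:ℝ) - 1 / 2 = 1 / 2 := by norm_num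
    rw [this]; exact Mid.base
  | @left m n _ ih =>
    have : 1 - m / 3 = (1 - m) / 3 + 2 / 3 := by ring
    rw [this]; exact Mid.right ih
  | @right m n _ ih =>
    have : 1 - (m / 3 + 2 / 3) = (1 - m) / 3 := by ring
    rw [this]; exact Mid.left ih

theorem Mid.scale {m : ℝ} {n : ℕ} (h : Mid m n) (hm : 2 / 3 ≤ m) :
    ∃ k, n = k + 1 ∧ Mid (3 * m - 2) k := by
  cases h with
  | base => exfalso; norm_num at hm
  | left h' =>
    exfalso
    have := h'.lt_one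
    linarith
  | @right μ k h' =>
    refine ⟨k, rfl, ?_⟩
    have : 3 * (μ / 3 + 2 / 3) - 2 = μ := by ring
    rw [this]; exact h'

theorem Mid.finite (n : ℕ) : {m : ℝ | Mid m n}.Finite := by
  induction n with
  | zero =>
    apply (Set.finite_singleton (1 / 2 : ℝ)).subset
    intro m hm
    have hm' : Mid m 0 := hm
    cases hm' with
    | base => rfl
  | succ n ih =>
    apply ((ih.image (fun m => m / 3)).union (ih.image (fun m => m / 3 + 2 / 3))).subset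
    intro m hm
    have hm' : Mid m (n + 1) := hm
    cases hm' with
    | left h => exact Or.inl ⟨_, h, rfl⟩
    | right h => exact Or.inr ⟨_, h, rfl⟩

/-- the set of infinite order points -/
def I : Set (ℝ × ℝ × ℝ) := {p | p.2 = (0, 0) ∧ ∃ n, Mid p.1 n}

theorem I_countable : I.Countable := by
  have h : {m : ℝ | ∃ n, Mid m n}.Countable := by
    have : {m : ℝ | ∃ n, Mid m n} = ⋃ n, {m | Mid m n} := by
      ext m; simp
    rw [this]
    exact Set.countable_iUnion (fun n => (Mid.finite n).countable)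
  apply (h.image (fun m => ((m, 0, 0) : ℝ × ℝ × ℝ))).mono
  rintro p ⟨h1, h2⟩
  exact ⟨p.1, h2, Prod.ext rfl h1.symm⟩

theorem base_mem {x : ℝ} (h0 : 0 ≤ x) (h1 : x ≤ 1) : ((x, 0, 0) : ℝ × ℝ × ℝ) ∈ XS :=
  ⟨⟨h0, h1⟩, Or.inl rfl⟩

theorem leg_mem {m t : ℝ} {n j : ℕ} (h : Mid m n) (h0 : 0 ≤ t)
    (h1 : t ≤ (1 / 12) * (1 / 3) ^ n * (1 / 2) ^ j) :
    ((m, t, (1 / 2) ^ j * t) : ℝ × ℝ × ℝ) ∈ XS :=
  ⟨⟨h.pos.le, h.lt_one.le⟩, Or.inr ⟨n, j, h, h0, h1, rfl⟩⟩

theorem t_nonneg {p : ℝ × ℝ × ℝ} (hp : p ∈ XS) : 0 ≤ p.2.1 := by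
  rcases hp.2 with h | ⟨_, _, _, h, _⟩
  · rw [h]
  · exact h

theorem mem_cases {p : ℝ × ℝ × ℝ} (hp : p ∈ XS) (ht : p.2.1 = 0) : p = (p.1, 0, 0) := by
  rcases hp.2 with h | ⟨_, _, _, _, _, h⟩
  · exact Prod.ext rfl h
  · rw [ht, mul_zero] at h
    exact Prod.ext rfl (Prod.ext ht h)

theorem mem_leg {p : ℝ × ℝ × ℝ} (hp : p ∈ XS) (ht : 0 < p.2.1) :
    ∃ n j : ℕ, Mid p.1 n ∧ p.2.1 ≤ (1 / 12) * (1 / 3) ^ n * (1 / 2) ^ j ∧
      p.2.2 = (1 / 2) ^ j * p.2.1 := by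
  rcases hp.2 with h | ⟨n, j, h1, _, h2, h3⟩
  · rw [h] at ht; exact absurd ht (lt_irrefl _)
  · exact ⟨n, j, h1, h2, h3⟩

/-- a single leg -/
def leg (m : ℝ) (n j : ℕ) : Set (ℝ × ℝ × ℝ) :=
  (fun t : ℝ => ((m, t, (1 / 2) ^ j * t) : ℝ × ℝ × ℝ)) '' Icc 0 ((1 / 12) * (1 / 3) ^ n * (1 / 2) ^ j)

theorem leg_compact (m : ℝ) (n j : ℕ) : IsCompact (leg m n j) :=
  isCompact_Icc.image (by fun_prop)

theorem pow_small {r : ℝ} (hr0 : 0 ≤ r) (hr : r < 1) {ε : ℝ} (hε : 0 < ε) :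
    {n : ℕ | ε ≤ r ^ n}.Finite := by
  have h := (tendsto_pow_atTop_nhds_zero_of_lt_one hr0 hr).eventually (gt_mem_nhds hε)
  rw [eventually_atTop] at h
  obtain ⟨N, hN⟩ := h
  apply (Set.finite_lt_nat N).subset
  intro n hn
  have hn' : ε ≤ r ^ n := hn
  by_contra hcon
  have : N ≤ n := not_lt.mp hcon
  have := hN n this
  linarith

theorem big_legs_finite {t0 : ℝ} (ht0 : 0 < t0) :
    {q : ℝ × ℕ × ℕ | Mid q.1 q.2.1 ∧ t0 ≤ (1 / 12) * (1 / 3) ^ q.2.1 * (1 / 2) ^ q.2.2}.Finite := by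
  have h3 := pow_small (r := 1 / 3) (by norm_num) (by norm_num) ht0
  have h2 := pow_small (r := 1 / 2) (by norm_num) (by norm_num) ht0
  have hm : (⋃ n ∈ {n : ℕ | t0 ≤ (1 / 3 : ℝ) ^ n}, {m : ℝ | Mid m n}).Finite :=
    h3.biUnion (fun n _ => Mid.finite n)
  apply (hm.prod (h3.prod h2)).subset
  rintro ⟨m, n, j⟩ ⟨h, ht⟩
  simp only at h ht
  have hn := pow3_le_one n
  have hn0 := pow3_pos n
  have hj := pow2_le_one j
  have hj0 := pow2_pos j
  have hprod : (1 / 3 : ℝ) ^ n * (1 / 2) ^ j ≤ (1 / 3 : ℝ) ^ n := by nlinarith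
  have hprod' : (1 / 3 : ℝ) ^ n * (1 / 2) ^ j ≤ (1 / 2 : ℝ) ^ j := by nlinarith
  have hprod0 : 0 < (1 / 3 : ℝ) ^ n * (1 / 2) ^ j := mul_pos hn0 hj0
  have e1 : t0 ≤ (1 / 3 : ℝ) ^ n := by nlinarith
  have e2 : t0 ≤ (1 / 2 : ℝ) ^ j := by nlinarith
  refine ⟨?_, e1, e2⟩
  simp only [mem_iUnion]
  exact ⟨n, e1, h⟩

theorem XS_closed : IsClosed XS := by
  apply isClosed_of_closure_subset
  intro p hp
  have hx : 0 ≤ p.1 ∧ p.1 ≤ 1 := by
    have hcl : IsClosed {q : ℝ × ℝ × ℝ | 0 ≤ q.1 ∧ q.1 ≤ 1} :=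
      (isClosed_le continuous_const continuous_fst).inter (isClosed_le continuous_fst continuous_const)
    exact closure_minimal (fun q hq => hq.1) hcl hp
  have ht : 0 ≤ p.2.1 := by
    have hcl : IsClosed {q : ℝ × ℝ × ℝ | 0 ≤ q.2.1} := isClosed_le continuous_const (by fun_prop)
    exact closure_minimal (fun q hq => t_nonneg hq) hcl hp
  have hs : |p.2.2| ≤ p.2.1 := by
    have hcl : IsClosed {q : ℝ × ℝ × ℝ | |q.2.2| ≤ q.2.1} := isClosed_le (by fun_prop) (by fun_prop)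
    refine closure_minimal (fun q hq => ?_) hcl hp
    change |q.2.2| ≤ q.2.1
    rcases hq.2 with h | ⟨n, j, _, h0, _, h⟩
    · rw [h]; simp
    · rw [h, abs_mul, abs_of_pos (pow2_pos j), abs_of_nonneg h0]
      have := pow2_le_one j
      nlinarith
  rcases ht.lt_or_eq with h | h
  · -- `p` is in the closure of a finite union of legs
    have hfin := big_legs_finite (t0 := p.2.1 / 2) (by linarith)
    have hcl : IsClosed (⋃ q ∈ {q : ℝ × ℕ × ℕ | Mid q.1 q.2.1 ∧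
        p.2.1 / 2 ≤ (1 / 12) * (1 / 3) ^ q.2.1 * (1 / 2) ^ q.2.2}, leg q.1 q.2.1 q.2.2) :=
      hfin.isClosed_biUnion (fun q _ => (leg_compact _ _ _).isClosed)
    have hopen : IsOpen {q : ℝ × ℝ × ℝ | p.2.1 / 2 < q.2.1} := isOpen_lt continuous_const (by fun_prop)
    have hp' : p ∈ closure (XS ∩ {q : ℝ × ℝ × ℝ | p.2.1 / 2 < q.2.1}) := by
      rw [_root_.mem_closure_iff] at hp ⊢
      intro O hO hpO
      obtain ⟨q, ⟨hq1, hq2⟩, hq3⟩ := hp _ (hO.inter hopen) ⟨hpO, by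
        change p.2.1 / 2 < p.2.1
        linarith⟩
      exact ⟨q, hq1, hq3, hq2⟩
    have hsub : XS ∩ {q : ℝ × ℝ × ℝ | p.2.1 / 2 < q.2.1} ⊆ ⋃ q ∈ {q : ℝ × ℕ × ℕ | Mid q.1 q.2.1 ∧
        p.2.1 / 2 ≤ (1 / 12) * (1 / 3) ^ q.2.1 * (1 / 2) ^ q.2.2}, leg q.1 q.2.1 q.2.2 := by
      rintro q ⟨hq, hq2⟩
      have hq2' : p.2.1 / 2 < q.2.1 := hq2
      obtain ⟨n, j, h1, h2, h3⟩ := mem_leg hq (by linarith)
      simp only [mem_iUnion]
      refine ⟨(q.1, n, j), ⟨h1, by linarith⟩, q.2.1, ⟨by linarith, h2⟩, ?_⟩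
      exact Prod.ext rfl (Prod.ext rfl h3.symm)
    have := closure_minimal hsub hcl hp'
    simp only [mem_iUnion] at this
    obtain ⟨⟨m, n, j⟩, ⟨h1, -⟩, t, ht', rfl⟩ := this
    exact leg_mem h1 ht'.1 ht'.2
  · rw [← h] at hs
    have hs0 : p.2.2 = 0 := abs_nonpos_iff.mp hs
    exact ⟨hx, Or.inl (Prod.ext h.symm hs0)⟩

theorem XS_compact : IsCompact XS := by
  apply Metric.isCompact_of_isClosed_isBounded XS_closed
  apply (Metric.isBounded_closedBall (x := ((0, 0, 0) : ℝ × ℝ × ℝ)) (r := 1)).subset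
  intro p hp
  rw [Metric.mem_closedBall, Prod.dist_eq, Prod.dist_eq]
  have hx := hp.1
  have ht := t_nonneg hp
  have key : p.2.1 ≤ 1 ∧ |p.2.2| ≤ 1 := by
    rcases hp.2 with h | ⟨n, j, _, h0, h1, h⟩
    · rw [h]; norm_num
    · have hn := pow3_le_one n
      have hn0 := pow3_pos n
      have hj := pow2_le_one j
      have hj0 := pow2_pos j
      have hprod : (1 / 3 : ℝ) ^ n * (1 / 2) ^ j ≤ 1 := by nlinarith
      have e1 : p.2.1 ≤ 1 := by nlinarith
      refine ⟨e1, ?_⟩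
      rw [h, abs_mul, abs_of_pos hj0, abs_of_nonneg h0]
      nlinarith
  apply max_le
  · rw [Real.dist_eq, sub_zero, abs_of_nonneg hx.1]; exact hx.2
  · apply max_le
    · simp only
      rw [Real.dist_eq, sub_zero, abs_of_nonneg ht]; exact key.1
    · simp only
      rw [Real.dist_eq, sub_zero]; exact key.2

theorem leg_segment_sub {p : ℝ × ℝ × ℝ} (hp : p ∈ XS) :
    ∃ K : Set (ℝ × ℝ × ℝ), K ⊆ XS ∧ (∀ q ∈ K, q.1 = p.1) ∧ p ∈ K ∧ (p.1, 0, 0) ∈ K ∧
      IsPreconnected K := by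
  rcases (t_nonneg hp).lt_or_eq with h | h
  · obtain ⟨n, j, h1, h2, h3⟩ := mem_leg hp h
    refine ⟨leg p.1 n j, ?_, ?_, ?_, ?_, ?_⟩
    · rintro _ ⟨t, ht, rfl⟩
      exact leg_mem h1 ht.1 ht.2
    · rintro _ ⟨t, ht, rfl⟩; rfl
    · exact ⟨p.2.1, ⟨h.le, h2⟩, Prod.ext rfl (Prod.ext rfl h3.symm)⟩
    · refine ⟨0, ⟨le_rfl, ?_⟩, by simp⟩
      exact (h.le).trans h2
    · exact isPreconnected_Icc.image _ (by fun_prop)
  · refine ⟨{p}, by simpa using hp, by simp, rfl, ?_, isPreconnected_singleton⟩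
    rw [mem_singleton_iff]
    exact (mem_cases hp h.symm).symm

/-- the part of the space over an order connected set is preconnected -/
theorem over_preconnected {J : Set ℝ} (hJ : J.OrdConnected) :
    IsPreconnected (XS ∩ {p : ℝ × ℝ × ℝ | p.1 ∈ J}) := by
  rcases (XS ∩ {p : ℝ × ℝ × ℝ | p.1 ∈ J}).eq_empty_or_nonempty with h | ⟨p0, hp0, hp0J⟩
  · rw [h]; exact isPreconnected_empty
  · apply isPreconnected_of_forall (p0.1, 0, 0)
    rintro p ⟨hp, hpJ⟩
    obtain ⟨K, hK, hK1, hpK, hpK', hKc⟩ := leg_segment_sub hp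
    have hseg : IsPreconnected ((fun x : ℝ => ((x, 0, 0) : ℝ × ℝ × ℝ)) '' uIcc p0.1 p.1) :=
      isPreconnected_uIcc.image _ (by fun_prop)
    refine ⟨(fun x : ℝ => ((x, 0, 0) : ℝ × ℝ × ℝ)) '' uIcc p0.1 p.1 ∪ K, ?_, ?_, ?_, ?_⟩
    · rintro q (⟨x, hx, rfl⟩ | hq)
      · refine ⟨?_, hJ.uIcc_subset hp0J hpJ hx⟩
        have := (ordConnected_Icc (a := (0:ℝ)) (b := 1)).uIcc_subset hp0.1 hp.1 hx
        exact base_mem this.1 this.2
      · refine ⟨hK hq, ?_⟩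
        change q.1 ∈ J
        rw [hK1 q hq]; exact hpJ
    · exact Or.inl ⟨p0.1, left_mem_uIcc, rfl⟩
    · exact Or.inr hpK
    · exact IsPreconnected.union (p.1, 0, 0) ⟨p.1, right_mem_uIcc, rfl⟩ hpK' hseg hKc

theorem XS_connected : IsConnected XS := by
  refine ⟨⟨_, base_mem le_rfl zero_le_one⟩, ?_⟩
  have := over_preconnected (J := univ) ordConnected_univ
  simpa using this

end Pool.Agent.Helper531.FTO
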