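import Mathlib
import Pool.Agent.Helper531.FTO.Space

set_option autoImplicit false

namespace Pool.Agent.Helper531.FTO

open Set Filter Topology Metric

/-- a finite-to-one map onto an interval -/
def h (p : ℝ × ℝ × ℝ) : ℝ := p.1 + p.2.1

theorem h_cont : Continuous h := by unfold h; fun_prop

theorem h_nonneg {p : ℝ × ℝ × ℝ} (hp : p ∈ XS) : 0 ≤ h p := add_nonneg hp.1.1 (t_nonneg hp)

theorem leg_lt {t : ℝ} {n j : ℕ} (h2 : t ≤ (1 / 12) * (1 / 3) ^ n * (1 / 2) ^ j) :
    t < (1 / 3 : ℝ) ^ n / 6 ∧ t ≤ (1 / 2 : ℝ) ^ j := by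
  have hn := pow3_le_one n
  have hn0 := pow3_pos n
  have hj := pow2_le_one j
  have hj0 := pow2_pos j
  have hprod : (1 / 3 : ℝ) ^ n * (1 / 2) ^ j ≤ (1 / 3 : ℝ) ^ n := by nlinarith
  have hprod' : (1 / 3 : ℝ) ^ n * (1 / 2) ^ j ≤ (1 / 2 : ℝ) ^ j := by nlinarith
  constructor <;> nlinarith

theorem h_le {p : ℝ × ℝ × ℝ} (hp : p ∈ XS) (hx : p.1 ≤ 2 / 3) : h p ≤ 2 / 3 := by
  rcases (t_nonneg hp).lt_or_eq with ht | ht
  · obtain ⟨n, j, h1, h2, -⟩ := mem_leg hp ht
    have h3 := h1.le_two_thirds hx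
    have h4 := (leg_lt h2).1
    unfold h
    linarith
  · unfold h; linarith

theorem h_lt {p : ℝ × ℝ × ℝ} (hp : p ∈ XS) (hx : p.1 < 2 / 3) : h p < 2 / 3 := by
  rcases (t_nonneg hp).lt_or_eq with ht | ht
  · obtain ⟨n, j, h1, h2, -⟩ := mem_leg hp ht
    have h3 := h1.le_two_thirds hx.le
    have h4 := (leg_lt h2).1
    unfold h
    linarith
  · unfold h; linarith

theorem h_fibre (y : ℝ) : {p : ℝ × ℝ × ℝ | p ∈ XS ∧ h p = y}.Finite := by
  have hsub : {p : ℝ × ℝ × ℝ | p ∈ XS ∧ h p = y} ⊆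
      {(y, 0, 0)} ∪ {p : ℝ × ℝ × ℝ | p ∈ XS ∧ h p = y ∧ 0 < p.2.1} := by
    rintro p ⟨hp, hy⟩
    rcases (t_nonneg hp).lt_or_eq with ht | ht
    · exact Or.inr ⟨hp, hy, ht⟩
    · left
      have h1 := mem_cases hp ht.symm
      have h2 : p.1 = y := by
        unfold h at hy
        linarith
      rw [mem_singleton_iff, h1, h2]
  apply Set.Finite.subset _ hsub
  apply (finite_singleton _).union
  rcases {p : ℝ × ℝ × ℝ | p ∈ XS ∧ h p = y ∧ 0 < p.2.1}.eq_empty_or_nonempty with he | ⟨q, hq, hqy, hq0⟩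
  · rw [he]; exact finite_empty
  · obtain ⟨n, j, h1, h2, h3⟩ := mem_leg hq hq0
    have hfin := pow_small (r := 1 / 2) (by norm_num) (by norm_num) hq0
    apply (hfin.image (fun i : ℕ => ((q.1, q.2.1, (1 / 2) ^ i * q.2.1) : ℝ × ℝ × ℝ))).subset
    rintro p ⟨hp, hpy, hp0⟩
    obtain ⟨n', j', g1, g2, g3⟩ := mem_leg hp hp0
    have e : p.1 + p.2.1 = q.1 + q.2.1 := by
      unfold h at hpy hqy
      rw [hpy, hqy]
    have e1 : p.1 = q.1 := by
      rcases le_total p.1 q.1 with hle | hle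
      · symm
        apply g1.gap h1
        have := (leg_lt g2).1
        rw [abs_of_nonneg (by linarith)]
        linarith
      · apply h1.gap g1
        have := (leg_lt h2).1
        rw [abs_of_nonneg (by linarith)]
        linarith
    have e2 : p.2.1 = q.2.1 := by linarith
    refine ⟨j', ?_, ?_⟩
    · change q.2.1 ≤ (1 / 2) ^ j'
      rw [← e2]
      exact (leg_lt g2).2
    · refine Prod.ext e1.symm (Prod.ext e2.symm ?_)
      simp only
      rw [g3, e2]

/-- a section of `h` with a prescribed endpoint -/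
theorem exists_section {b : ℝ × ℝ × ℝ} (hb : b ∈ XS) : ∃ s : ℝ → ℝ × ℝ × ℝ, Continuous s ∧
    (∀ l, 0 ≤ l → l ≤ h b → s l ∈ XS) ∧ (∀ l, h (s l) = l) ∧ s (h b) = b ∧ s 0 = (0, 0, 0) := by
  have key : ∀ κ : ℝ, b.2.2 = κ * b.2.1 →
      (∀ l, b.1 < l → l ≤ h b → ((b.1, l - b.1, κ * (l - b.1)) : ℝ × ℝ × ℝ) ∈ XS) →
      ∃ s : ℝ → ℝ × ℝ × ℝ, Continuous s ∧
        (∀ l, 0 ≤ l → l ≤ h b → s l ∈ XS) ∧ (∀ l, h (s l) = l) ∧ s (h b) = b ∧ s 0 = (0, 0, 0) := by
    intro κ hκ hmem
    have hx0 := hb.1.1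
    have ht0 := t_nonneg hb
    refine ⟨fun l => (min l b.1, max (l - b.1) 0, κ * max (l - b.1) 0), by fun_prop, ?_, ?_, ?_, ?_⟩
    · intro l hl0 hl
      rcases lt_or_ge b.1 l with hc | hc
      · simp only
        rw [min_eq_right hc.le, max_eq_left (by linarith)]
        exact hmem l hc hl
      · simp only
        rw [min_eq_left hc, max_eq_right (by linarith), mul_zero]
        exact base_mem hl0 (hc.trans hb.1.2)
    · intro l
      unfold h
      simp only
      rcases le_total l b.1 with hc | hc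
      · rw [min_eq_left hc, max_eq_right (by linarith)]; ring
      · rw [min_eq_right hc, max_eq_left (by linarith)]; ring
    · have e1 : h b - b.1 = b.2.1 := by unfold h; ring
      have e2 : b.1 ≤ h b := by unfold h; linarith
      simp only
      rw [e1, min_eq_right e2, max_eq_left ht0, ← hκ]
    · simp only
      rw [min_eq_left hx0, max_eq_right (by linarith), mul_zero]
  rcases (t_nonneg hb).lt_or_eq with ht | ht
  · obtain ⟨n, j, h1, h2, h3⟩ := mem_leg hb ht
    apply key ((1 / 2) ^ j) h3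
    intro l hl hl'
    apply leg_mem h1 (by linarith)
    unfold h at hl'
    linarith
  · have hbe := mem_cases hb ht.symm
    apply key 0
    · rw [hbe]; simp
    · intro l hl hl'
      exfalso
      unfold h at hl'
      linarith

theorem exists_path {b : ℝ × ℝ × ℝ} (hb : b ∈ XS) {α : ℝ} (_h0 : 0 ≤ α) (h1 : α < 2 / 3) :
    ∃ ω : ℝ → ℝ × ℝ × ℝ, Continuous ω ∧ (∀ u, 0 ≤ u → u ≤ 2 / 3 → ω u ∈ XS) ∧ ω α = b ∧
      ω (2 / 3) = (0, 0, 0) ∧ ∀ q, {u | ω u = q}.Finite := by
  rcases (h_nonneg hb).lt_or_eq with hpos | hzero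
  · obtain ⟨s, hs, hmem, hhs, hsb, hs0⟩ := exists_section hb
    have hd : 0 < 2 / 3 - α := by linarith
    refine ⟨fun u => s (h b * min ((2 / 3 - u) / (2 / 3 - α)) (1 - α + u)),
      hs.comp (by fun_prop), ?_, ?_, ?_, ?_⟩
    · intro u hu0 hu1
      have e1 : 0 ≤ (2 / 3 - u) / (2 / 3 - α) := div_nonneg (by linarith) hd.le
      have e2 : 0 ≤ min ((2 / 3 - u) / (2 / 3 - α)) (1 - α + u) := le_min e1 (by linarith)
      have e3 : min ((2 / 3 - u) / (2 / 3 - α)) (1 - α + u) ≤ 1 := by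
        rcases le_total α u with hc | hc
        · apply (min_le_left _ _).trans
          rw [div_le_one hd]; linarith
        · apply (min_le_right _ _).trans; linarith
      apply hmem _ (mul_nonneg hpos.le e2)
      nlinarith
    · simp only
      rw [div_self hd.ne']
      have : (1:ℝ) - α + α = 1 := by ring
      rw [this, min_self, mul_one, hsb]
    · simp only
      rw [sub_self, zero_div, min_eq_left (by linarith), mul_zero, hs0]
    · intro q
      apply ((finite_singleton (2 / 3 - h q / h b * (2 / 3 - α))).union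
        (finite_singleton (h q / h b - 1 + α))).subset
      intro u hu
      have hu' : s (h b * min ((2 / 3 - u) / (2 / 3 - α)) (1 - α + u)) = q := hu
      have e1 := congrArg h hu'
      rw [hhs] at e1
      have e2 : min ((2 / 3 - u) / (2 / 3 - α)) (1 - α + u) = h q / h b := by
        rw [← e1]; field_simp
      rcases min_choice ((2 / 3 - u) / (2 / 3 - α)) (1 - α + u) with hc | hc
      · left
        rw [hc] at e2
        rw [mem_singleton_iff, ← e2, div_mul_cancel₀ _ hd.ne']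
        ring
      · right
        rw [hc] at e2
        rw [mem_singleton_iff, ← e2]
        ring
  · have hx0 := hb.1.1
    have ht0 := t_nonneg hb
    have hbx : b.1 = 0 := by unfold h at hzero; linarith
    have hbt : b.2.1 = 0 := by unfold h at hzero; linarith
    have hbe : b = (0, 0, 0) := by rw [mem_cases hb hbt, hbx]
    refine ⟨fun u => (min |u - α| (2 / 3 - u), 0, 0), by fun_prop, ?_, ?_, ?_, ?_⟩
    · intro u hu0 hu1
      apply base_mem
      · exact le_min (abs_nonneg _) (by linarith)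
      · apply (min_le_right _ _).trans; linarith
    · simp only
      rw [sub_self, abs_zero, min_eq_left (by linarith), hbe]
    · simp only
      rw [sub_self, min_eq_right (abs_nonneg _)]
    · intro q
      apply (((finite_singleton (α + q.1)).union (finite_singleton (α - q.1))).union
        (finite_singleton (2 / 3 - q.1))).subset
      intro u hu
      have hu' : ((min |u - α| (2 / 3 - u), 0, 0) : ℝ × ℝ × ℝ) = q := hu
      have e1 : min |u - α| (2 / 3 - u) = q.1 := congrArg Prod.fst hu'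
      rcases min_choice |u - α| (2 / 3 - u) with hc | hc
      · left
        rw [hc] at e1
        rcases abs_choice (u - α) with hc' | hc'
        · left
          rw [hc'] at e1
          rw [mem_singleton_iff, ← e1]; ring
        · right
          rw [hc'] at e1
          rw [mem_singleton_iff, ← e1]; ring
      · right
        rw [hc] at e1
        rw [mem_singleton_iff, ← e1]; ring

/-- the scaling map of the right third onto the whole space -/
def E (p : ℝ × ℝ × ℝ) : ℝ × ℝ × ℝ := (3 * p.1 - 2, 3 * p.2.1, 3 * p.2.2)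

theorem E_cont : Continuous E := by unfold E; fun_prop

theorem E_mem {p : ℝ × ℝ × ℝ} (hp : p ∈ XS) (hx : 2 / 3 ≤ p.1) : E p ∈ XS := by
  rcases (t_nonneg hp).lt_or_eq with ht | ht
  · obtain ⟨n, j, h1, h2, h3⟩ := mem_leg hp ht
    obtain ⟨k, rfl, hk⟩ := h1.scale hx
    have : E p = (3 * p.1 - 2, 3 * p.2.1, (1 / 2) ^ j * (3 * p.2.1)) := by
      unfold E
      rw [h3]
      refine Prod.ext rfl (Prod.ext rfl ?_)
      simp only
      ring
    rw [this]
    apply leg_mem hk (by linarith)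
    rw [pow_succ] at h2
    linarith
  · rw [mem_cases hp ht.symm]
    unfold E
    simp only [mul_zero]
    apply base_mem
    · linarith
    · linarith [hp.1.2]

/-- the inverse scaling -/
noncomputable def E' (q : ℝ × ℝ × ℝ) : ℝ × ℝ × ℝ := (q.1 / 3 + 2 / 3, q.2.1 / 3, q.2.2 / 3)

theorem E_E' (q : ℝ × ℝ × ℝ) : E (E' q) = q := by
  unfold E E'
  refine Prod.ext ?_ (Prod.ext ?_ ?_) <;> simp only <;> ring

theorem E_inj : Function.Injective E := by
  intro p q hpq
  have e1 : 3 * p.1 - 2 = 3 * q.1 - 2 := congrArg Prod.fst hpq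
  have e2 : 3 * p.2.1 = 3 * q.2.1 := congrArg (fun r : ℝ × ℝ × ℝ => r.2.1) hpq
  have e3 : 3 * p.2.2 = 3 * q.2.2 := congrArg (fun r : ℝ × ℝ × ℝ => r.2.2) hpq
  exact Prod.ext (by linarith) (Prod.ext (by linarith) (by linarith))

theorem E'_mem {q : ℝ × ℝ × ℝ} (hq : q ∈ XS) : E' q ∈ XS ∧ 2 / 3 ≤ (E' q).1 := by
  refine ⟨?_, ?_⟩
  · rcases (t_nonneg hq).lt_or_eq with ht | ht
    · obtain ⟨n, j, h1, h2, h3⟩ := mem_leg hq ht
      have : E' q = (q.1 / 3 + 2 / 3, q.2.1 / 3, (1 / 2) ^ j * (q.2.1 / 3)) := by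
        unfold E'
        rw [h3]
        refine Prod.ext rfl (Prod.ext rfl ?_)
        simp only
        ring
      rw [this]
      apply leg_mem h1.right (by linarith)
      rw [pow_succ]
      linarith
    · rw [mem_cases hq ht.symm]
      unfold E'
      simp only [zero_div]
      apply base_mem
      · linarith [hq.1.1]
      · linarith [hq.1.2]
  · unfold E'
    simp only
    linarith [hq.1.1]

theorem two_thirds_base {p : ℝ × ℝ × ℝ} (hp : p ∈ XS) (hx : p.1 = 2 / 3) : p = (2 / 3, 0, 0) := by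
  rcases (t_nonneg hp).lt_or_eq with ht | ht
  · exfalso
    obtain ⟨n, j, h1, -⟩ := mem_leg hp ht
    have h2 := h1.le_two_thirds hx.le
    have := pow3_pos n
    linarith
  · rw [mem_cases hp ht.symm, hx]

/-- finite-to-one self-surjections with prescribed value -/
def Nice (a b : ℝ × ℝ × ℝ) : Prop := ∃ f : ℝ × ℝ × ℝ → ℝ × ℝ × ℝ, ContinuousOn f XS ∧
  MapsTo f XS XS ∧ SurjOn f XS XS ∧ (∀ q, {p | p ∈ XS ∧ f p = q}.Finite) ∧ f a = b

theorem nice_left {a b : ℝ × ℝ × ℝ} (ha : a ∈ XS) (hb : b ∈ XS) (hx : a.1 < 2 / 3) : Nice a b := by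
  classical
  obtain ⟨ω, hω, hωX, hωa, hω0, hωf⟩ := exists_path hb (h_nonneg ha) (h_lt ha hx)
  refine ⟨fun p => if 2 / 3 ≤ p.1 then E p else ω (h p), ?_, ?_, ?_, ?_, ?_⟩
  · have hR : IsClosed {p : ℝ × ℝ × ℝ | p ∈ XS ∧ 2 / 3 ≤ p.1} :=
      XS_closed.inter (isClosed_le continuous_const continuous_fst)
    have hL : IsClosed {p : ℝ × ℝ × ℝ | p ∈ XS ∧ p.1 ≤ 2 / 3} :=
      XS_closed.inter (isClosed_le continuous_fst continuous_const)
    have hX : XS = {p : ℝ × ℝ × ℝ | p ∈ XS ∧ 2 / 3 ≤ p.1} ∪ {p : ℝ × ℝ × ℝ | p ∈ XS ∧ p.1 ≤ 2 / 3} := by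
      ext p
      constructor
      · intro hp
        rcases le_total (2 / 3) p.1 with hc | hc
        · exact Or.inl ⟨hp, hc⟩
        · exact Or.inr ⟨hp, hc⟩
      · rintro (hp | hp)
        · exact hp.1
        · exact hp.1
    rw [hX]
    apply ContinuousOn.union_of_isClosed _ _ hR hL
    · apply E_cont.continuousOn.congr
      intro p hp
      simp only
      rw [if_pos hp.2]
    · apply (hω.comp h_cont).continuousOn.congr
      intro p hp
      simp only [Function.comp]
      split_ifs with hc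
      · have hpe := two_thirds_base hp.1 (le_antisymm hp.2 hc)
        rw [hpe]
        have e1 : h ((2 / 3 : ℝ), (0 : ℝ), (0 : ℝ)) = 2 / 3 := by unfold h; norm_num
        have e2 : E ((2 / 3 : ℝ), (0 : ℝ), (0 : ℝ)) = (0, 0, 0) := by
          unfold E
          refine Prod.ext ?_ (Prod.ext ?_ ?_) <;> norm_num
        rw [e1, e2, hω0]
      · rfl
  · intro p hp
    simp only
    split_ifs with hc
    · exact E_mem hp hc
    · exact hωX _ (h_nonneg hp) (h_le hp (not_le.mp hc).le)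
  · intro q hq
    refine ⟨E' q, (E'_mem hq).1, ?_⟩
    simp only
    rw [if_pos (E'_mem hq).2, E_E']
  · intro q
    have hfin : (⋃ u ∈ {u | ω u = q}, {p : ℝ × ℝ × ℝ | p ∈ XS ∧ h p = u}).Finite :=
      (hωf q).biUnion (fun u _ => h_fibre u)
    apply ((finite_singleton (E' q)).union hfin).subset
    rintro p ⟨hp, hpq⟩
    simp only at hpq
    split_ifs at hpq with hc
    · left
      rw [mem_singleton_iff]
      apply E_inj
      rw [hpq, E_E']
    · right
      simp only [mem_iUnion]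
      exact ⟨h p, hpq, hp, rfl⟩
  · simp only
    rw [if_neg (not_le.mpr hx), hωa]

/-- the reflection -/
def σ (p : ℝ × ℝ × ℝ) : ℝ × ℝ × ℝ := (1 - p.1, p.2)

theorem σσ (p : ℝ × ℝ × ℝ) : σ (σ p) = p := by
  unfold σ
  refine Prod.ext ?_ rfl
  simp only
  ring

theorem σ_mem {p : ℝ × ℝ × ℝ} (hp : p ∈ XS) : σ p ∈ XS := by
  refine ⟨⟨?_, ?_⟩, ?_⟩
  · change 0 ≤ 1 - p.1
    linarith [hp.1.2]
  · change 1 - p.1 ≤ 1
    linarith [hp.1.1]
  · rcases hp.2 with h1 | ⟨n, j, h1, h2⟩
    · exact Or.inl h1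
    · exact Or.inr ⟨n, j, h1.symm, h2⟩

theorem nice {a b : ℝ × ℝ × ℝ} (ha : a ∈ XS) (hb : b ∈ XS) : Nice a b := by
  rcases lt_or_ge a.1 (2 / 3) with hx | hx
  · exact nice_left ha hb hx
  · obtain ⟨f, h1, h2, h3, h4, h5⟩ := nice_left (σ_mem ha) hb (by
      change 1 - a.1 < 2 / 3
      linarith)
    have hσ : Continuous σ := by unfold σ; fun_prop
    refine ⟨f ∘ σ, h1.comp hσ.continuousOn (fun p hp => σ_mem hp), fun p hp => h2 (σ_mem hp), ?_, ?_, h5⟩
    · intro q hq
      obtain ⟨p, hp, hpq⟩ := h3 hq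
      refine ⟨σ p, σ_mem hp, ?_⟩
      simp only [Function.comp, σσ, hpq]
    · intro q
      apply ((h4 q).image σ).subset
      rintro p ⟨hp, hpq⟩
      exact ⟨σ p, ⟨σ_mem hp, hpq⟩, σσ p⟩

end Pool.Agent.Helper531.FTO
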