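import Mathlib
import Pool.Agent.Helper531.FTO.Space

set_option autoImplicit false

namespace Pool.Agent.Helper531.FTO

open Set Filter Topology Metric

/-! ### local structure -/

/-- an open set around a leg without its base point -/
def tube (m : ℝ) (n j : ℕ) : Set (ℝ × ℝ × ℝ) :=
  {p | 0 < p.2.1 ∧ |p.1 - m| < (1 / 3) ^ n / 6 ∧ (3 / 4) * (1 / 2) ^ j * p.2.1 < p.2.2 ∧
    p.2.2 < (3 / 2) * (1 / 2) ^ j * p.2.1}

theorem tube_open (m : ℝ) (n j : ℕ) : IsOpen (tube m n j) := by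
  have h1 : IsOpen {p : ℝ × ℝ × ℝ | 0 < p.2.1} := isOpen_lt continuous_const (by fun_prop)
  have h2 : IsOpen {p : ℝ × ℝ × ℝ | |p.1 - m| < (1 / 3) ^ n / 6} :=
    isOpen_lt (by fun_prop) continuous_const
  have h3 : IsOpen {p : ℝ × ℝ × ℝ | (3 / 4) * (1 / 2) ^ j * p.2.1 < p.2.2} :=
    isOpen_lt (by fun_prop) (by fun_prop)
  have h4 : IsOpen {p : ℝ × ℝ × ℝ | p.2.2 < (3 / 2) * (1 / 2) ^ j * p.2.1} :=
    isOpen_lt (by fun_prop) (by fun_prop)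
  exact h1.inter (h2.inter (h3.inter h4))

theorem mem_tube {m t : ℝ} {n j : ℕ} (ht : 0 < t) :
    ((m, t, (1 / 2) ^ j * t) : ℝ × ℝ × ℝ) ∈ tube m n j := by
  have h := mul_pos (pow2_pos j) ht
  refine ⟨ht, ?_, ?_, ?_⟩
  · simp only [sub_self, abs_zero]
    have := pow3_pos n
    linarith
  · simp only
    nlinarith
  · simp only
    nlinarith

theorem pow2_close {i j : ℕ} (h1 : (3 / 4 : ℝ) * (1 / 2) ^ j < (1 / 2) ^ i)
    (h2 : (1 / 2 : ℝ) ^ i < (3 / 2) * (1 / 2) ^ j) : i = j := by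
  rcases lt_trichotomy i j with h | h | h
  · exfalso
    obtain ⟨k, rfl⟩ := Nat.exists_eq_add_of_lt h
    have e : (1 / 2 : ℝ) ^ (i + k + 1) = (1 / 2) ^ i * ((1 / 2) ^ k * (1 / 2)) := by ring
    rw [e] at h2
    have := pow2_le_one k
    have := pow2_pos i
    nlinarith
  · exact h
  · exfalso
    obtain ⟨k, rfl⟩ := Nat.exists_eq_add_of_lt h
    have e : (1 / 2 : ℝ) ^ (j + k + 1) = (1 / 2) ^ j * ((1 / 2) ^ k * (1 / 2)) := by ring
    rw [e] at h1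
    have := pow2_le_one k
    have := pow2_pos j
    nlinarith

theorem tube_inter {m : ℝ} {n j : ℕ} (hm : Mid m n) {p : ℝ × ℝ × ℝ} (hp : p ∈ XS)
    (hpt : p ∈ tube m n j) : p.1 = m ∧ p.2.2 = (1 / 2) ^ j * p.2.1 ∧
      ∃ k i : ℕ, i = j ∧ Mid m k ∧ p.2.1 ≤ (1 / 12) * (1 / 3) ^ k * (1 / 2) ^ j := by
  obtain ⟨h0, h1, h2, h3⟩ := hpt
  obtain ⟨k, i, g1, g2, g3⟩ := mem_leg hp h0
  have e1 : p.1 = m := hm.gap g1 h1
  have e2 : i = j := by
    apply pow2_close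
    · have : (3 / 4 : ℝ) * (1 / 2) ^ j * p.2.1 < (1 / 2) ^ i * p.2.1 := by rw [← g3]; exact h2
      exact lt_of_mul_lt_mul_right this h0.le
    · have : (1 / 2 : ℝ) ^ i * p.2.1 < (3 / 2) * (1 / 2) ^ j * p.2.1 := by rw [← g3]; exact h3
      exact lt_of_mul_lt_mul_right this h0.le
  subst e2
  rw [e1] at g1
  exact ⟨e1, g3, k, i, rfl, g1, g2⟩

/-- the part of the `(m, j)`-leg at heights in an order connected set of positive numbers -/
theorem leg_part_preconnected (m : ℝ) (j : ℕ) {J : Set ℝ} (hJ : J.OrdConnected) (hJ0 : ∀ t ∈ J, 0 < t) :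
    IsPreconnected {p : ℝ × ℝ × ℝ | p ∈ XS ∧ p.1 = m ∧ p.2.2 = (1 / 2) ^ j * p.2.1 ∧ p.2.1 ∈ J ∧
      ∃ k : ℕ, Mid m k ∧ p.2.1 ≤ (1 / 12) * (1 / 3) ^ k * (1 / 2) ^ j} := by
  have : {p : ℝ × ℝ × ℝ | p ∈ XS ∧ p.1 = m ∧ p.2.2 = (1 / 2) ^ j * p.2.1 ∧ p.2.1 ∈ J ∧
      ∃ k : ℕ, Mid m k ∧ p.2.1 ≤ (1 / 12) * (1 / 3) ^ k * (1 / 2) ^ j}
      = (fun t : ℝ => ((m, t, (1 / 2) ^ j * t) : ℝ × ℝ × ℝ)) ''
        (J ∩ {t | ∃ k : ℕ, Mid m k ∧ t ≤ (1 / 12) * (1 / 3) ^ k * (1 / 2) ^ j}) := by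
    ext p
    constructor
    · rintro ⟨-, h1, h2, h3, h4⟩
      exact ⟨p.2.1, ⟨h3, h4⟩, Prod.ext h1.symm (Prod.ext rfl h2.symm)⟩
    · rintro ⟨t, ⟨h1, k, h2, h3⟩, rfl⟩
      exact ⟨leg_mem h2 (hJ0 t h1).le h3, rfl, rfl, h1, k, h2, h3⟩
  rw [this]
  apply IsPreconnected.image _ _ (by fun_prop)
  apply Set.OrdConnected.isPreconnected
  apply hJ.inter
  constructor
  rintro x _ y ⟨k, h1, h2⟩ z hz
  exact ⟨k, h1, hz.2.trans h2⟩

theorem local_structure {x : ℝ × ℝ × ℝ} (hx : x ∈ XS) (hxI : x ∉ I) (F : Set (ℝ × ℝ × ℝ))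
    (hF : F.Finite) : ∃ O N1 N2 : Set (ℝ × ℝ × ℝ), IsOpen O ∧ x ∈ O ∧ N1 ⊆ XS ∧ N2 ⊆ XS ∧
      IsPreconnected N1 ∧ IsPreconnected N2 ∧ O ∩ XS ⊆ {x} ∪ N1 ∪ N2 ∧ Disjoint N1 F ∧
      Disjoint N2 F := by
  rcases (t_nonneg hx).lt_or_eq with ht | ht
  · -- a point of a leg
    obtain ⟨n, j, h1, h2, h3⟩ := mem_leg hx ht
    -- a small interval of heights free of `F`
    obtain ⟨ε, hε, hεF⟩ : ∃ ε > 0, ∀ q ∈ F, q.2.1 ≠ x.2.1 → ε ≤ |q.2.1 - x.2.1| := by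
      have hfin : ((fun q : ℝ × ℝ × ℝ => |q.2.1 - x.2.1|) '' {q ∈ F | q.2.1 ≠ x.2.1}).Finite :=
        (hF.subset (fun q hq => hq.1)).image _
      rcases ((fun q : ℝ × ℝ × ℝ => |q.2.1 - x.2.1|) '' {q ∈ F | q.2.1 ≠ x.2.1}).eq_empty_or_nonempty
        with he | he
      · refine ⟨1, one_pos, fun q hq hne => ?_⟩
        exfalso
        have : |q.2.1 - x.2.1| ∈ (fun q : ℝ × ℝ × ℝ => |q.2.1 - x.2.1|) '' {q ∈ F | q.2.1 ≠ x.2.1} :=
          ⟨q, ⟨hq, hne⟩, rfl⟩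
        rw [he] at this
        exact this
      · obtain ⟨r, ⟨q, ⟨hq, hqn⟩, rfl⟩, hr⟩ := exists_min_image _ id hfin he
        refine ⟨|q.2.1 - x.2.1|, abs_pos.mpr (sub_ne_zero.mpr hqn), fun q' hq' hne => ?_⟩
        exact hr _ ⟨q', ⟨hq', hne⟩, rfl⟩
    let O : Set (ℝ × ℝ × ℝ) := tube x.1 n j ∩ {p | |p.2.1 - x.2.1| < ε}
    let P : Set ℝ → Set (ℝ × ℝ × ℝ) := fun J =>
      {p : ℝ × ℝ × ℝ | p ∈ XS ∧ p.1 = x.1 ∧ p.2.2 = (1 / 2) ^ j * p.2.1 ∧ p.2.1 ∈ J ∧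
        ∃ k : ℕ, Mid x.1 k ∧ p.2.1 ≤ (1 / 12) * (1 / 3) ^ k * (1 / 2) ^ j}
    have hxe : x = (x.1, x.2.1, (1 / 2) ^ j * x.2.1) := Prod.ext rfl (Prod.ext rfl h3)
    refine ⟨O, P (Ioo (max 0 (x.2.1 - ε)) x.2.1), P (Ioo x.2.1 (x.2.1 + ε)), ?_, ?_,
      fun p hp => hp.1, fun p hp => hp.1, ?_, ?_, ?_, ?_, ?_⟩
    · exact (tube_open _ _ _).inter (isOpen_lt (by fun_prop) continuous_const)
    · refine ⟨?_, ?_⟩
      · have := mem_tube (m := x.1) (n := n) (j := j) ht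
        rw [← hxe] at this
        exact this
      · change |x.2.1 - x.2.1| < ε
        rw [sub_self, abs_zero]; exact hε
    · exact leg_part_preconnected _ _ ordConnected_Ioo
        (fun t ht => lt_of_le_of_lt (le_max_left _ _) ht.1)
    · exact leg_part_preconnected _ _ ordConnected_Ioo (fun t ht' => ht.trans ht'.1)
    · rintro p ⟨⟨hp1, hp2⟩, hpX⟩
      obtain ⟨e1, e2, k, i, rfl, e3, e4⟩ := tube_inter h1 hpX hp1
      obtain ⟨g1, g2⟩ := abs_lt.mp (show |p.2.1 - x.2.1| < ε from hp2)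
      have hp0 : 0 < p.2.1 := hp1.1
      rcases lt_trichotomy p.2.1 x.2.1 with h | h | h
      · left; right
        exact ⟨hpX, e1, e2, ⟨max_lt hp0 (by linarith), h⟩, k, e3, e4⟩
      · left; left
        rw [mem_singleton_iff, hxe]
        refine Prod.ext e1 (Prod.ext h ?_)
        simp only
        rw [e2, h]
      · right
        exact ⟨hpX, e1, e2, ⟨h, by linarith⟩, k, e3, e4⟩
    · rw [Set.disjoint_left]
      rintro p ⟨-, -, -, hp, -⟩ hpF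
      have := hεF p hpF hp.2.ne
      have h5 := lt_of_le_of_lt (le_max_right 0 (x.2.1 - ε)) hp.1
      rw [abs_of_neg (sub_neg.mpr hp.2)] at this
      linarith
    · rw [Set.disjoint_left]
      rintro p ⟨-, -, -, hp, -⟩ hpF
      have := hεF p hpF hp.1.ne'
      rw [abs_of_pos (sub_pos.mpr hp.1)] at this
      linarith [hp.2]
  · -- a base point
    have hxe := mem_cases hx ht.symm
    have hnot : ∀ n, ¬ Mid x.1 n := by
      intro n hn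
      apply hxI
      exact ⟨by rw [hxe], n, hn⟩
    obtain ⟨ε, hε, hεF⟩ : ∃ ε > 0, ∀ q ∈ F, q.1 ≠ x.1 → ε ≤ |q.1 - x.1| := by
      have hfin : ((fun q : ℝ × ℝ × ℝ => |q.1 - x.1|) '' {q ∈ F | q.1 ≠ x.1}).Finite :=
        (hF.subset (fun q hq => hq.1)).image _
      rcases ((fun q : ℝ × ℝ × ℝ => |q.1 - x.1|) '' {q ∈ F | q.1 ≠ x.1}).eq_empty_or_nonempty
        with he | he
      · refine ⟨1, one_pos, fun q hq hne => ?_⟩
        exfalso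
        have : |q.1 - x.1| ∈ (fun q : ℝ × ℝ × ℝ => |q.1 - x.1|) '' {q ∈ F | q.1 ≠ x.1} :=
          ⟨q, ⟨hq, hne⟩, rfl⟩
        rw [he] at this
        exact this
      · obtain ⟨r, ⟨q, ⟨hq, hqn⟩, rfl⟩, hr⟩ := exists_min_image _ id hfin he
        refine ⟨|q.1 - x.1|, abs_pos.mpr (sub_ne_zero.mpr hqn), fun q' hq' hne => ?_⟩
        exact hr _ ⟨q', ⟨hq', hne⟩, rfl⟩
    refine ⟨{p | |p.1 - x.1| < ε}, XS ∩ {p | p.1 ∈ Ioo (x.1 - ε) x.1},
      XS ∩ {p | p.1 ∈ Ioo x.1 (x.1 + ε)}, isOpen_lt (by fun_prop) continuous_const, ?_,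
      inter_subset_left, inter_subset_left, over_preconnected ordConnected_Ioo,
      over_preconnected ordConnected_Ioo, ?_, ?_, ?_⟩
    · change |x.1 - x.1| < ε
      rw [sub_self, abs_zero]; exact hε
    · rintro p ⟨hp, hpX⟩
      obtain ⟨g1, g2⟩ := abs_lt.mp (show |p.1 - x.1| < ε from hp)
      rcases lt_trichotomy p.1 x.1 with h | h | h
      · left; right
        exact ⟨hpX, by constructor <;> linarith⟩
      · left; left
        rw [mem_singleton_iff]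
        rcases (t_nonneg hpX).lt_or_eq with h' | h'
        · obtain ⟨n, j, h1, -⟩ := mem_leg hpX h'
          rw [h] at h1
          exact absurd h1 (hnot n)
        · rw [mem_cases hpX h'.symm, hxe, h]
      · right
        exact ⟨hpX, by constructor <;> linarith⟩
    · rw [Set.disjoint_left]
      rintro p ⟨-, hp⟩ hpF
      have hp' : x.1 - ε < p.1 ∧ p.1 < x.1 := hp
      have := hεF p hpF hp'.2.ne
      rw [abs_of_neg (sub_neg.mpr hp'.2)] at this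
      linarith
    · rw [Set.disjoint_left]
      rintro p ⟨-, hp⟩ hpF
      have hp' : x.1 < p.1 ∧ p.1 < x.1 + ε := hp
      have := hεF p hpF hp'.1.ne'
      rw [abs_of_pos (sub_pos.mpr hp'.1)] at this
      linarith

end Pool.Agent.Helper531.FTO
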